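import Pool.Agent.H897Z.MS.Main

open NumberField Pool.Agent.H897Z.MS

/-- The Monoid Stark assertion for an arbitrary order `O` of a real quadratic field and a modulus
`m` follows from the assertion for the maximal order and the modulus `(m : O_K)`. -/
theorem Pool.Agent.Results.MP_6bf7a3_nt.AReduceToMaximal.result
    {K : Type} [Field K] [NumberField K] [Algebra K ℝ] (_hK : Module.finrank ℚ K = 2)
    (σ₂ : K →+* ℝ) (_hσ : σ₂ ≠ algebraMap K ℝ) (O : Subalgebra ℤ K) (hO : IsOrder O)
    (m : Submodule O K) (h0 : m ≠ ⊥) (hle : m ≤ 1) (hne : m ≠ 1) :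
    MonoidStark σ₂ (colon m) → MonoidStark σ₂ m :=
  main σ₂ hO h0 hle hne
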